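import Pool.Agent.Run7.h881.VL.Game
import Pool.Agent.Run7.h881.VL.Walk

/-!
Vertex cover and counting logic: the gap against the number of variables.
-/

set_option autoImplicit false

namespace Pool.Agent.Results.MP_af3183_lc.LevelTradeoff

open Finset Pool.Agent.Run7.h881.VL

lemma local_of_game {V V' : Type} [Fintype V] [DecidableEq V] [Fintype V'] [DecidableEq V']
    {G : SimpleGraph V} {H : SimpleGraph V'} {k : ℕ} (h : CountingEquiv G H k) (hk : 0 < k)
    (C : Finset V') (hC : ∀ u v, H.Adj u v → u ∈ C ∨ v ∈ C) :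
    Local G k (lexp G H k C) where
  add := lexp_add C
  smul := lexp_smul C
  one := fun _ hS => lexp_one h hk C hS
  nonneg := fun S f hf => lexp_nonneg C hC S f hf
  cons := fun _ _ hST hT f hf => lexp_cons h C hST hT f hf

lemma exists_vc {V : Type} [Fintype V] (G : SimpleGraph V) :
    ∃ T : Finset V, (∀ u v, G.Adj u v → u ∈ T ∨ v ∈ T) ∧ T.card = vc G := by
  have : {m | ∃ T : Finset V, (∀ u v, G.Adj u v → u ∈ T ∨ v ∈ T) ∧ T.card = m}.Nonempty :=
    ⟨_, univ, fun u _ _ => Or.inl (mem_univ u), rfl⟩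
  exact Nat.sInf_mem this

lemma vc_le {V : Type} [Fintype V] {G : SimpleGraph V} {T : Finset V}
    (hT : ∀ u v, G.Adj u v → u ∈ T ∨ v ∈ T) : vc G ≤ T.card :=
  Nat.sInf_le ⟨T, hT, rfl⟩

lemma finite_bound {V V' : Type} [Fintype V] [DecidableEq V] [Fintype V'] [DecidableEq V']
    (G : SimpleGraph V) (H : SimpleGraph V') (k l : ℕ) (hl : 1 ≤ l)
    (hn : Fintype.card V ≤ (4 * l - 1) ^ l * (k - 2))
    (h : CountingEquiv G H k) : (8 * l + 1) * vc G ≤ 16 * l * vc H := by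
  by_cases hk : 3 ≤ k
  · obtain ⟨C, hC, hCc⟩ := exists_vc H
    have hL := local_of_game h (by omega) C hC
    obtain ⟨T, hT, hTc⟩ := round_walk hL hk hl hn
    have h1 := lexp_single h (by omega) C
    have h2 : ∑ v : V, lexp G H k C {v} (X v) ≤ (C.card : ℝ) := h1
    have h3 : (16 * l : ℝ) * ∑ v : V, lexp G H k C {v} (X v) ≤ 16 * l * C.card :=
      mul_le_mul_of_nonneg_left h2 (by positivity)
    have h4 : ((8 * l + 1) * T.card : ℝ) ≤ 16 * l * C.card := hTc.trans h3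
    have h5 : (8 * l + 1) * T.card ≤ 16 * l * C.card := by exact_mod_cast h4
    rw [← hCc]
    exact (Nat.mul_le_mul_left _ (vc_le hT)).trans h5
  · have hk2 : k - 2 = 0 := by omega
    rw [hk2, mul_zero] at hn
    have hV : IsEmpty V := Fintype.card_eq_zero_iff.mp (by omega)
    have : vc G ≤ (∅ : Finset V).card := vc_le fun u _ _ => (hV.false u).elim
    simp only [card_empty, nonpos_iff_eq_zero] at this
    rw [this]
    simp

/-- (1) Let `G ≡^C_k H`, where `G` has `n` vertices, and let `l ≥ 1` and `n ≤ (4 l - 1) ^ l (k - 2)`.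
Then `vc G ≤ (2 - 2 / (8 l + 1)) vc H`.
(2) So the gap `2 - ε` of Q1 does not occur with `δ n` variables if `ε < 2 / (8 l + 1)` and
`δ ≥ 2 / (4 l - 1) ^ l` for some `l`, and `n` is large. -/
theorem result :
    (∀ (V V' : Type) [Fintype V] [DecidableEq V] [Fintype V'] [DecidableEq V']
      (G : SimpleGraph V) (H : SimpleGraph V') (k l : ℕ), 1 ≤ l →
      Fintype.card V ≤ (4 * l - 1) ^ l * (k - 2) → CountingEquiv G H k →
      (8 * l + 1) * vc G ≤ 16 * l * vc H) ∧
    (∀ (l : ℕ) (ε δ : ℝ), 1 ≤ l → ε < 2 / (8 * l + 1) → 2 / (4 * (l : ℝ) - 1) ^ l ≤ δ →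
      ∃ n₀ : ℕ, ∀ n ≥ n₀, ∀ G H : SimpleGraph (Fin n), (∃ u v, H.Adj u v) →
        CountingEquiv G H ⌊δ * n⌋₊ → (vc G : ℝ) < (2 - ε) * vc H) := by
  refine ⟨fun V V' _ _ _ _ G H k l hl hn h => finite_bound G H k l hl hn h, ?_⟩
  intro l ε δ hl hε hδ
  set N : ℕ := (4 * l - 1) ^ l with hN
  have hN1 : 1 ≤ N := Nat.one_le_pow _ _ (by omega)
  refine ⟨3 * N, fun n hn G H hedge h => ?_⟩
  set k := ⌊δ * n⌋₊ with hk
  have hNR : (0 : ℝ) < N := by exact_mod_cast hN1
  have hcast : (4 * (l : ℝ) - 1) ^ l = N := by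
    rw [hN, Nat.cast_pow, Nat.cast_sub (by omega)]
    push_cast
    ring
  rw [hcast] at hδ
  have h1 : (2 * n : ℝ) < N * (k + 1) := by
    have h2 : δ * n < k + 1 := Nat.lt_floor_add_one _
    have h3 : 2 / (N : ℝ) * n ≤ δ * n := mul_le_mul_of_nonneg_right hδ (Nat.cast_nonneg _)
    have h4 : 2 / (N : ℝ) * n < k + 1 := lt_of_le_of_lt h3 h2
    have h5 : (N : ℝ) * (2 / (N : ℝ) * n) < N * (k + 1) := mul_lt_mul_of_pos_left h4 hNR
    have h6 : (N : ℝ) * (2 / (N : ℝ) * n) = 2 * n := by field_simp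
    linarith
  have h2 : 2 * n < N * (k + 1) := by exact_mod_cast h1
  have hk6 : 6 ≤ k := by
    by_contra hcon
    have h3 : k + 1 ≤ 6 := by omega
    have h4 : N * (k + 1) ≤ N * 6 := Nat.mul_le_mul_left _ h3
    omega
  have hn2 : n ≤ N * (k - 2) := by
    have h3 : N * (k - 2) + 3 * N = N * (k + 1) := by
      have : k + 1 = (k - 2) + 3 := by omega
      rw [this]; ring
    omega
  have hb := finite_bound G H k l hl (by rw [Fintype.card_fin]; exact hn2) h
  have hH : 1 ≤ vc H := by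
    obtain ⟨T, hT, hTc⟩ := exists_vc H
    rw [← hTc]
    obtain ⟨u, v, huv⟩ := hedge
    rcases hT u v huv with hu | hu
    · exact card_pos.mpr ⟨_, hu⟩
    · exact card_pos.mpr ⟨_, hu⟩
  have hHR : (1 : ℝ) ≤ vc H := by exact_mod_cast hH
  have hbR : (8 * l + 1 : ℝ) * vc G ≤ 16 * l * vc H := by exact_mod_cast hb
  have hlR : (0 : ℝ) < 8 * l + 1 := by positivity
  have h7 : (vc G : ℝ) ≤ (2 - 2 / (8 * l + 1)) * vc H := by
    have h8 : (2 - 2 / (8 * l + 1) : ℝ) * vc H = 16 * l * vc H / (8 * l + 1) := by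
      field_simp
      ring
    rw [h8, le_div_iff₀ hlR]
    linarith
  have h9 : (2 - 2 / (8 * l + 1) : ℝ) * vc H < (2 - ε) * vc H :=
    mul_lt_mul_of_pos_right (by linarith) (by linarith)
  linarith

end Pool.Agent.Results.MP_af3183_lc.LevelTradeoff
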